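import Pool.Agent.Results.MP_e21eee_nt.TuplesInWindows
import Pool.Agent.H36PA.Engine

/-!
# Vinogradov's system with `s` up to `4 k / 3`: in the residue classes of almost every tuple of `p`-adic integers ALL
solutions are diagonal, uniformly in translations

Let `k < s`, `d = s - k`, `3 d ≤ k` and `e = √(4 (2 d - 1) s + 1) + d - 1` (so `e = √(4 k + 5)` for `d = 1`). An integral
`s`-tuple `x` is called good if all integral `y` for which `(x, y)` is a solution of Vinogradov's system of degree `k` are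
permutations of `x`.

Let `p_1, …, p_m` be primes and `σ > 0`. For all `α = (α_j)`, `α_j ∈ ℤ_{p_j} ^ s`, outside of a set of Hausdorff dimension
at most `e / σ`, for all large `T` and for ALL integers `c`, every integral `x` with `|x_i - c| ≤ T` and
`|x_i - c - α_{j,i}|_{p_j} ≤ T ^ (-σ)` for all `i`, `j` is good.

The number of the `x` which are considered, for given `T` and `c`, is about `T ^ (s (1 - m σ))`. The dimension of
`∏ ℤ_{p_j} ^ s` is `m s`, so the theorem says something for `e / s < m σ < 1`.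
-/

set_option autoImplicit false

namespace Pool.Agent.Results.MP_e21eee_nt.ResidueClassesOfTuples

open Pool.Agent.Results.MP_e21eee_nt.TuplesInWindows (Solution OnlyDiagonal expo)

theorem onlyDiagonal_shift {k s : ℕ} {x : Fin s → ℤ} (c : ℤ) (h : OnlyDiagonal k (fun i => x i + c)) :
    OnlyDiagonal k x := by
  intro y hy
  obtain ⟨σ, hσ⟩ := h (fun i => y i + c) (TuplesInWindows.shift hy c)
  refine ⟨σ, funext fun i => ?_⟩
  have h1 : y i + c = x (σ i) + c := congrFun hσ i
  show y i = x (σ i)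
  linarith

/-- **All solutions in residue classes are diagonal.** -/
theorem result (s k : ℕ) (hks : k < s) (h3 : 3 * (s - k) ≤ k) (m : ℕ) (p : Fin m → ℕ) [∀ j, Fact (p j).Prime]
    (σ : ℝ) (hσ : 0 < σ) :
    ∃ E : Set (∀ j : Fin m, Fin s → ℤ_[p j]), dimH E ≤ ENNReal.ofReal (expo s k / σ) ∧
      ∀ α ∉ E, ∃ T₀ : ℝ, ∀ T ≥ T₀, ∀ (c : ℤ) (x : Fin s → ℤ), (∀ i, |(x i : ℝ) - c| ≤ T) →
        (∀ j i, ‖(x i : ℤ_[p j]) - c - α j i‖ ≤ T ^ (-σ)) →
          ∀ y : Fin s → ℤ, Solution k x y → ∃ π : Equiv.Perm (Fin s), y = x ∘ π := by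
  obtain ⟨E, hE1, hE2⟩ := Pool.Agent.H36PA.padic_ints p (fun _ => {x : Fin s → ℤ | ¬ OnlyDiagonal k x})
    (s := expo s k) (TuplesInWindows.expo_nonneg hks) (fun _ ε hε => by
      obtain ⟨C, hC0, hC⟩ := TuplesInWindows.count_real s k hks h3 ε hε
      refine ⟨C, fun X hX => ?_⟩
      have h1 := hC 0 X hX
      have e : {x : Fin s → ℤ | (∀ i, |(x i : ℝ)| ≤ X) ∧ x ∈ {x : Fin s → ℤ | ¬ OnlyDiagonal k x}}
          = {x : Fin s → ℤ | ¬ OnlyDiagonal k x ∧ ∀ i, |(x i : ℝ) - ((0 : ℤ) : ℝ)| ≤ X} := by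
        ext x
        simp only [Set.mem_setOf_eq, Int.cast_zero, sub_zero]
        tauto
      rw [e]
      exact h1) hσ
  refine ⟨E, hE1, fun α hα => ?_⟩
  obtain ⟨T₀, hT⟩ := hE2 α hα 0
  refine ⟨T₀, fun T hT1 c x hx hxα => ?_⟩
  have h1 := hT T hT1 (fun i => x i + (-c)) (fun i => by
    have h2 := hx i
    push_cast
    rwa [← sub_eq_add_neg]) (fun j i => by
    have h2 := hxα j i
    push_cast
    rwa [← sub_eq_add_neg])
  have h4 : OnlyDiagonal k (fun i => x i + (-c)) := not_not.1 h1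
  exact onlyDiagonal_shift (-c) h4

end Pool.Agent.Results.MP_e21eee_nt.ResidueClassesOfTuples
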