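import Pool.Agent.Results.MP_e21eee_nt.PaucitySquareRoot
import Pool.Agent.V11326.WI
import Pool.Agent.V35.WM

/-!
# Vinogradov's system with `s` up to `4 k / 3`: in typical windows and near typical rays ALL solutions are diagonal

Let `k < s`, `d = s - k`, `3 d ≤ k` and `e = √(4 (2 d - 1) s + 1) + d - 1` (so `e = √(4 k + 5)` for `d = 1`; `e < s` for
`d = 1`, `k ≥ 4`). An integral `s`-tuple `x` is called good if all integral `y` for which `(x, y)` is a solution of
Vinogradov's system of degree `k` are permutations of `x`: the first `k` power sums determine `x`.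

(1) Let `v_n ≥ 1` be a sequence with exponent of convergence at most `τ` (for example `v_n = 2 ^ n`, `τ = 0`), let `c_n` be
ARBITRARY integers and `θ < 1`. For all `α ∈ ℝ ^ s` outside a set of Hausdorff dimension at most `(e + τ) / (1 - θ)`, which has
measure zero if `e + τ + s θ < s`, and all large `n`, ALL integral `x` with `|x_i - (c_n + α_i v_n)| ≤ v_n ^ θ` for all `i` are
good. Countably many sequences of integers `c_n` are treated at once.

(2) Let `0 ≤ θ < 1`. For all `α ∈ ℝ ^ s` outside a set of Hausdorff dimension at most `1 + e / (1 - θ)`, which has measure zero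
if `e < (s - 1) (1 - θ)`, all but finitely many integral `x` with `|x_i - r α_i| ≤ r ^ θ` for all `i`, for some `r > 0`, are
good.

For example for `s = k + 1` the radius may be `v_n ^ θ` with any `θ < 1 - √(4 k + 5) / (k + 1)`. The number of the solutions
`(x, y)` of the system with `x` in such a window is thus the number of the diagonal ones, at most `s!` times the number of
the `x` in the window.

The proof combines the starting result `PaucitySquareRoot` (the number of non-diagonal solutions in `[1, N]` is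
`O(N ^ (e + ε))`), the translation invariance of the system and covering arguments in `ℝ ^ s`.
-/

set_option autoImplicit false

open MeasureTheory

namespace Pool.Agent.Results.MP_e21eee_nt.TuplesInWindows

/-- The exponent of convergence of the sequence `v` is at most `τ`: the sum of the `v_n ^ (-p)` converges for all
`p > τ`. -/
def ExpLe (v : ℕ → ℝ) (τ : ℝ) : Prop := ∀ p : ℝ, τ < p → Summable fun n => (v n) ^ (-p)

/-- `(x, y)` is an integral solution of Vinogradov's system of degree `k`. -/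
def Solution (k : ℕ) {s : ℕ} (x y : Fin s → ℤ) : Prop :=
  ∀ j : ℕ, 1 ≤ j → j ≤ k → ∑ i, x i ^ j = ∑ i, y i ^ j

/-- All integral solutions `(x, y)` with the given `x` are diagonal: `y` is a permutation of `x`. -/
def OnlyDiagonal (k : ℕ) {s : ℕ} (x : Fin s → ℤ) : Prop :=
  ∀ y : Fin s → ℤ, Solution k x y → ∃ σ : Equiv.Perm (Fin s), y = x ∘ σ

/-- The exponent `√(4 (2 d - 1) s + 1) + d - 1`, where `d = s - k`. -/
noncomputable def expo (s k : ℕ) : ℝ :=
  Real.sqrt (4 * (2 * ((s : ℝ) - k) - 1) * s + 1) + ((s : ℝ) - k - 1)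

theorem expo_nonneg {s k : ℕ} (hks : k < s) : 0 ≤ expo s k := by
  have h : (k : ℝ) + 1 ≤ s := by exact_mod_cast hks
  unfold expo
  have := Real.sqrt_nonneg (4 * (2 * ((s : ℝ) - k) - 1) * s + 1)
  linarith

theorem shift {k s : ℕ} {x y : Fin s → ℤ} (h : Solution k x y) (a : ℤ) :
    Solution k (fun i => x i + a) (fun i => y i + a) := by
  intro j hj1 hj2
  have key : ∀ z : Fin s → ℤ, ∑ i, (z i + a) ^ j =
      ∑ m ∈ Finset.range (j + 1), (∑ i, z i ^ m) * a ^ (j - m) * (j.choose m : ℤ) := by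
    intro z
    have e : ∑ i, (z i + a) ^ j = ∑ i, ∑ m ∈ Finset.range (j + 1), z i ^ m * a ^ (j - m) * (j.choose m : ℤ) :=
      Finset.sum_congr rfl fun i _ => add_pow _ _ _
    rw [e, Finset.sum_comm]
    refine Finset.sum_congr rfl fun m _ => ?_
    rw [Finset.sum_mul, Finset.sum_mul]
  show ∑ i, (x i + a) ^ j = ∑ i, (y i + a) ^ j
  rw [key, key]
  refine Finset.sum_congr rfl fun m hm => ?_
  rw [Finset.mem_range] at hm
  rcases Nat.eq_zero_or_pos m with h0 | h0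
  · subst h0
    simp
  · rw [h m h0 (by omega)]

theorem bound {k s : ℕ} (hk : 2 ≤ k) {x y : Fin s → ℤ} (h : Solution k x y) {T : ℤ} (hT : 0 ≤ T)
    (hx : ∀ i, |x i| ≤ T) (i : Fin s) : |y i| ≤ s * T := by
  have hs : (1 : ℤ) ≤ s := by
    have := i.pos
    exact_mod_cast this
  have h2 := h 2 (by norm_num) hk
  have h3 : y i ^ 2 ≤ ∑ i, y i ^ 2 :=
    Finset.single_le_sum (f := fun i => y i ^ 2) (fun i _ => sq_nonneg (y i)) (Finset.mem_univ i)
  have h4 : ∑ i, x i ^ 2 ≤ ∑ _i : Fin s, T ^ 2 := Finset.sum_le_sum fun i _ => by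
    have h5 := abs_le.1 (hx i)
    exact sq_le_sq' h5.1 h5.2
  rw [Finset.sum_const, Finset.card_univ, Fintype.card_fin, nsmul_eq_mul] at h4
  refine abs_le_of_sq_le_sq ?_ (by positivity)
  have h5 : (s : ℤ) * T ^ 2 ≤ (s * T) ^ 2 := by
    rw [mul_pow]
    refine mul_le_mul_of_nonneg_right ?_ (sq_nonneg T)
    nlinarith
  linarith

/-- the number of the bad tuples in a cube around `(c, …, c)` -/
theorem count (s k : ℕ) (hks : k < s) (h3 : 3 * (s - k) ≤ k) (ε : ℝ) (hε : 0 < ε) : ∃ C : ℝ, 0 ≤ C ∧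
    ∀ (c : ℤ) (T : ℕ), 1 ≤ T → {x : Fin s → ℤ | ¬ OnlyDiagonal k x ∧ ∀ i, |x i - c| ≤ T}.Finite ∧
      ({x : Fin s → ℤ | ¬ OnlyDiagonal k x ∧ ∀ i, |x i - c| ≤ T}.ncard : ℝ) ≤ C * (T : ℝ) ^ (expo s k + ε) := by
  classical
  obtain ⟨C, hC⟩ := (PaucitySquareRoot.result s k hks).1 h3 ε hε
  have he := expo_nonneg hks
  have hs1 : 1 ≤ s := by omega
  have hk2 : 2 ≤ k := by omega
  refine ⟨|C| * (3 * (s : ℝ)) ^ (expo s k + ε), by positivity, fun c T hT => ?_⟩
  obtain ⟨B, hB⟩ : ∃ B : Set (Fin s → ℤ), B = {x : Fin s → ℤ | ¬ OnlyDiagonal k x ∧ ∀ i, |x i - c| ≤ T} := ⟨_, rfl⟩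
  rw [← hB]
  have hfin : B.Finite := by
    apply Set.Finite.subset (Set.Finite.pi' fun _ : Fin s => Set.finite_Icc (c - (T : ℤ)) (c + T))
    intro x hx i
    rw [hB] at hx
    have h1 := abs_le.1 (hx.2 i)
    exact ⟨by linarith, by linarith⟩
  refine ⟨hfin, ?_⟩
  have hYex : ∀ x : Fin s → ℤ, ∃ y : Fin s → ℤ, x ∈ B → Solution k x y ∧ ¬ ∃ σ : Equiv.Perm (Fin s), y = x ∘ σ := by
    intro x
    by_cases hx : x ∈ B
    · have h1 : ¬ OnlyDiagonal k x := by
        rw [hB] at hx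
        exact hx.1
      unfold OnlyDiagonal at h1
      push Not at h1
      obtain ⟨y, hy1, hy2⟩ := h1
      refine ⟨y, fun _ => ⟨hy1, ?_⟩⟩
      push Not
      exact hy2
    · exact ⟨x, fun h => absurd h hx⟩
  choose Y hY using hYex
  obtain ⟨a, ha⟩ : ∃ a : ℤ, a = s * T + 1 - c := ⟨_, rfl⟩
  obtain ⟨N, hN⟩ : ∃ N : ℕ, N = 2 * s * T + 1 := ⟨_, rfl⟩
  have hTs : (T : ℤ) ≤ s * T := by
    have : T ≤ s * T := Nat.le_mul_of_pos_left T (by omega)
    exact_mod_cast this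
  have hxa : ∀ x ∈ B, ∀ i, 1 ≤ x i + a ∧ x i + a ≤ N := by
    intro x hx i
    rw [hB] at hx
    have h1 := abs_le.1 (hx.2 i)
    have hN' : (N : ℤ) = 2 * (s * T) + 1 := by
      rw [hN]
      push_cast
      ring
    rw [ha, hN']
    constructor <;> linarith
  have hya : ∀ x ∈ B, ∀ i, 1 ≤ Y x i + a ∧ Y x i + a ≤ N := by
    intro x hx i
    have h1 := shift (hY x hx).1 (-c)
    have h2 := bound hk2 h1 (T := (T : ℤ)) (Nat.cast_nonneg T) (fun i => by
      rw [hB] at hx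
      have h4 := hx.2 i
      rw [sub_eq_add_neg] at h4
      exact h4) i
    have h4 := abs_le.1 h2
    have hN' : (N : ℤ) = 2 * (s * T) + 1 := by
      rw [hN]
      push_cast
      ring
    rw [ha, hN']
    constructor <;> linarith
  obtain ⟨g, hg⟩ : ∃ g : (Fin s → ℤ) → (Fin s → ℕ) × (Fin s → ℕ),
    g = fun x => (fun i => (x i + a).toNat, fun i => (Y x i + a).toNat) := ⟨_, rfl⟩
  have hinj : Set.InjOn g (hfin.toFinset : Set (Fin s → ℤ)) := by
    intro x hx x' hx' hxx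
    rw [Set.Finite.coe_toFinset] at hx hx'
    funext i
    have h1 : (x i + a).toNat = (x' i + a).toNat := by
      have := congrArg (fun p : (Fin s → ℕ) × (Fin s → ℕ) => p.1 i) hxx
      simpa [hg] using this
    have h2 := (hxa x hx i).1
    have h4 := (hxa x' hx' i).1
    omega
  have hcard : ((hfin.toFinset.image g).card : ℝ) ≤ C * (N : ℝ) ^ (expo s k + ε) := by
    refine le_trans (Nat.cast_le.2 (Finset.card_le_card ?_)) (hC N (by rw [hN]; omega))
    intro p hp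
    rw [Finset.mem_image] at hp
    obtain ⟨x, hx, rfl⟩ := hp
    rw [Set.Finite.mem_toFinset] at hx
    rw [Finset.mem_filter, Finset.mem_product, Fintype.mem_piFinset, Fintype.mem_piFinset]
    obtain ⟨h1, h2⟩ := hY x hx
    have e1 : ∀ i, (((g x).1 i : ℕ) : ℤ) = x i + a := fun i => by
      rw [hg]
      exact Int.toNat_of_nonneg (by have := (hxa x hx i).1; linarith)
    have e2 : ∀ i, (((g x).2 i : ℕ) : ℤ) = Y x i + a := fun i => by
      rw [hg]
      exact Int.toNat_of_nonneg (by have := (hya x hx i).1; linarith)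
    refine ⟨⟨fun i => ?_, fun i => ?_⟩, fun j => ?_, ?_⟩
    · rw [Finset.mem_Icc]
      have h4 := hxa x hx i
      rw [← e1 i] at h4
      exact ⟨by exact_mod_cast h4.1, by exact_mod_cast h4.2⟩
    · rw [Finset.mem_Icc]
      have h4 := hya x hx i
      rw [← e2 i] at h4
      exact ⟨by exact_mod_cast h4.1, by exact_mod_cast h4.2⟩
    · have h4 := shift h1 a (j.val + 1) (by omega) (by have := j.isLt; omega)
      have h5 : ∑ i, (x i + a) ^ (j.val + 1) = ∑ i, (Y x i + a) ^ (j.val + 1) := h4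
      have h6 : ((∑ i, (g x).1 i ^ (j.val + 1) : ℕ) : ℤ) = ((∑ i, (g x).2 i ^ (j.val + 1) : ℕ) : ℤ) := by
        push_cast
        simp only [e1, e2]
        exact h5
      exact_mod_cast h6
    · rintro ⟨σ, hσ⟩
      apply h2
      refine ⟨σ, funext fun i => ?_⟩
      have h4 := congrFun hσ i
      have h5 : (((g x).2 i : ℕ) : ℤ) = (((g x).1 (σ i) : ℕ) : ℤ) := by
        exact_mod_cast h4
      rw [e1, e2] at h5
      show Y x i = x (σ i)
      linarith
  have hNle : (N : ℝ) ≤ 3 * s * T := by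
    have h1 : 1 ≤ s * T := Nat.mul_pos (by omega) (by omega)
    have h2 : N ≤ 3 * (s * T) := by rw [hN]; nlinarith
    calc (N : ℝ) ≤ ((3 * (s * T) : ℕ) : ℝ) := by exact_mod_cast h2
      _ = 3 * s * T := by push_cast; ring
  rw [Set.ncard_eq_toFinset_card _ hfin, ← Finset.card_image_of_injOn hinj]
  calc ((hfin.toFinset.image g).card : ℝ) ≤ C * (N : ℝ) ^ (expo s k + ε) := hcard
    _ ≤ |C| * (3 * s * T) ^ (expo s k + ε) := by
        refine mul_le_mul (le_abs_self C) ?_ (by positivity) (abs_nonneg C)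
        exact Real.rpow_le_rpow (Nat.cast_nonneg _) hNle (by linarith)
    _ = |C| * (3 * (s : ℝ)) ^ (expo s k + ε) * (T : ℝ) ^ (expo s k + ε) := by
        rw [Real.mul_rpow (by positivity) (Nat.cast_nonneg _), mul_assoc]

/-- the same with real bounds -/
theorem count_real (s k : ℕ) (hks : k < s) (h3 : 3 * (s - k) ≤ k) (ε : ℝ) (hε : 0 < ε) : ∃ C : ℝ, 0 ≤ C ∧
    ∀ (c : ℤ) (X : ℝ), 1 ≤ X → {x : Fin s → ℤ | ¬ OnlyDiagonal k x ∧ ∀ i, |(x i : ℝ) - c| ≤ X}.Finite ∧
      ({x : Fin s → ℤ | ¬ OnlyDiagonal k x ∧ ∀ i, |(x i : ℝ) - c| ≤ X}.ncard : ℝ) ≤ C * X ^ (expo s k + ε) := by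
  obtain ⟨C, hC0, hC⟩ := count s k hks h3 ε hε
  have he := expo_nonneg hks
  refine ⟨C, hC0, fun c X hX => ?_⟩
  have hX0 : 0 ≤ X := by linarith
  have hT1 : 1 ≤ ⌊X⌋₊ := Nat.le_floor (by exact_mod_cast hX)
  obtain ⟨h1, h2⟩ := hC c ⌊X⌋₊ hT1
  have hsub : {x : Fin s → ℤ | ¬ OnlyDiagonal k x ∧ ∀ i, |(x i : ℝ) - c| ≤ X} ⊆
      {x : Fin s → ℤ | ¬ OnlyDiagonal k x ∧ ∀ i, |x i - c| ≤ (⌊X⌋₊ : ℤ)} := by
    rintro x ⟨hx1, hx2⟩
    refine ⟨hx1, fun i => ?_⟩
    have h4 : (((x i - c).natAbs : ℕ) : ℝ) ≤ X := by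
      rw [Nat.cast_natAbs]
      push_cast
      exact hx2 i
    have h5 : (x i - c).natAbs ≤ ⌊X⌋₊ := Nat.le_floor h4
    rw [Int.abs_eq_natAbs]
    exact_mod_cast h5
  refine ⟨h1.subset hsub, ?_⟩
  refine ((Nat.cast_le (α := ℝ)).2 (Set.ncard_le_ncard hsub h1)).trans (h2.trans ?_)
  refine mul_le_mul_of_nonneg_left ?_ hC0
  exact Real.rpow_le_rpow (Nat.cast_nonneg _) (Nat.floor_le hX0) (by linarith)

/-- **Main result.** -/
theorem result (s k : ℕ) (hks : k < s) (h3 : 3 * (s - k) ≤ k) :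
    (∀ (c : ℕ → ℕ → ℤ) (v : ℕ → ℝ) (τ θ : ℝ), (∀ n, 1 ≤ v n) → 0 ≤ τ → ExpLe v τ → θ < 1 →
      ∃ F : Set (Fin s → ℝ), dimH F ≤ ENNReal.ofReal ((expo s k + τ) / (1 - θ)) ∧
        (expo s k + τ + s * θ < s → volume F = 0) ∧
        ∀ α : Fin s → ℝ, α ∉ F → ∀ j : ℕ, ∃ n₀ : ℕ, ∀ n : ℕ, n₀ ≤ n → ∀ x : Fin s → ℤ,
          (∀ i, |(x i : ℝ) - (c j n + α i * v n)| ≤ (v n) ^ θ) → OnlyDiagonal k x) ∧
    (∀ θ : ℝ, 0 ≤ θ → θ < 1 → ∃ F : Set (Fin s → ℝ),
        dimH F ≤ ENNReal.ofReal (1 + expo s k / (1 - θ)) ∧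
        (expo s k < (s - 1) * (1 - θ) → volume F = 0) ∧
        ∀ α : Fin s → ℝ, α ∉ F → {x : Fin s → ℤ | ¬ OnlyDiagonal k x ∧
          ∃ r : ℝ, 0 < r ∧ ∀ i, |(x i : ℝ) - r * α i| ≤ r ^ θ}.Finite) := by
  have he := expo_nonneg hks
  have hcards : (Fintype.card (Fin s) : ℝ) = s := by rw [Fintype.card_fin]
  refine ⟨fun c v τ θ hv1 hτ hv hθ => ?_, fun θ hθ0 hθ1 => ?_⟩
  · obtain ⟨F, hF, h⟩ := Pool.Agent.V11326.WI.windowsKC (E := Fin s → ℝ)
      (fun _ _ => {x : Fin s → ℤ | ¬ OnlyDiagonal k x}) (fun j n x => fun i => (x i : ℝ) - c j n)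
      (s := expo s k) hv1 hτ hv he hθ (by
        intro j A ε hε
        obtain ⟨C, hC0, hC⟩ := count_real s k hks h3 ε hε
        refine ⟨C * ((A : ℝ) + 1) ^ (expo s k + ε), 0, fun n _ => ?_⟩
        have hn1 := hv1 n
        have hA : (0 : ℝ) ≤ A := Nat.cast_nonneg A
        have hX : 1 ≤ ((A : ℝ) + 1) * v n := by nlinarith
        obtain ⟨h1, h2⟩ := hC (c j n) (((A : ℝ) + 1) * v n) hX
        have hsub : {x : Fin s → ℤ | x ∈ {x : Fin s → ℤ | ¬ OnlyDiagonal k x} ∧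
            ‖(fun i => (x i : ℝ) - c j n)‖ ≤ ((A : ℝ) + 1) * v n} ⊆
            {x : Fin s → ℤ | ¬ OnlyDiagonal k x ∧ ∀ i, |(x i : ℝ) - c j n| ≤ ((A : ℝ) + 1) * v n} := by
          rintro x ⟨hx1, hx2⟩
          refine ⟨hx1, fun i => ?_⟩
          rw [pi_norm_le_iff_of_nonneg (by linarith)] at hx2
          exact hx2 i
        refine ⟨h1.subset hsub, ?_⟩
        refine ((Nat.cast_le (α := ℝ)).2 (Set.ncard_le_ncard hsub h1)).trans (h2.trans (le_of_eq ?_))
        rw [Real.mul_rpow (by positivity) (by linarith), mul_assoc])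
    refine ⟨F, hF, fun hc => ?_, fun α hα j => ?_⟩
    · refine Pool.Agent.V11326.WI.null (c := (s : ℝ) - expo s k) (by rw [hcards]; linarith) hτ hθ ?_
        (by rw [hcards]; linarith)
      rw [hcards]
      have e : (s : ℝ) - ((s : ℝ) - expo s k) + τ = expo s k + τ := by ring
      rw [e]
      exact hF
    · obtain ⟨n₀, hn⟩ := h α hα j
      refine ⟨n₀, fun n hn1 x hw => ?_⟩
      by_contra hx
      refine absurd ?_ (not_le.2 (hn n hn1 x hx))
      rw [pi_norm_le_iff_of_nonneg (Real.rpow_nonneg (by linarith [hv1 n]) _)]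
      intro i
      have h4 := hw i
      rw [Pi.sub_apply, Pi.smul_apply, smul_eq_mul, Real.norm_eq_abs, mul_comm (v n)]
      have e : (x i : ℝ) - c j n - α i * v n = (x i : ℝ) - (c j n + α i * v n) := by ring
      rw [e]
      exact h4
  · have hthin : Pool.Agent.V35.WM.Thin {x : Fin s → ℤ | ¬ OnlyDiagonal k x}
        (fun x : Fin s → ℤ => fun i => (x i : ℝ)) (expo s k) := by
      intro ε hε
      obtain ⟨C, hC0, hC⟩ := count_real s k hks h3 ε hε
      refine ⟨C, fun X hX => ?_⟩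
      obtain ⟨h1, h2⟩ := hC 0 X hX
      have hsub : {x : Fin s → ℤ | x ∈ {x : Fin s → ℤ | ¬ OnlyDiagonal k x} ∧ ‖(fun i => (x i : ℝ))‖ ≤ X} ⊆
          {x : Fin s → ℤ | ¬ OnlyDiagonal k x ∧ ∀ i, |(x i : ℝ) - ((0 : ℤ) : ℝ)| ≤ X} := by
        rintro x ⟨hx1, hx2⟩
        refine ⟨hx1, fun i => ?_⟩
        rw [pi_norm_le_iff_of_nonneg (by linarith)] at hx2
        have h4 := hx2 i
        rw [Real.norm_eq_abs] at h4
        rw [Int.cast_zero, sub_zero]
        exact h4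
      refine ⟨h1.subset hsub, ?_⟩
      exact ((Nat.cast_le (α := ℝ)).2 (Set.ncard_le_ncard hsub h1)).trans h2
    refine ⟨Pool.Agent.V35.WM.BadRay {x : Fin s → ℤ | ¬ OnlyDiagonal k x}
      (fun x : Fin s → ℤ => fun i => (x i : ℝ)) θ, Pool.Agent.V35.WM.dim_badRay he hθ0 hθ1 hthin, fun hc => ?_,
      fun α hα => ?_⟩
    · have h1θ : 0 < 1 - θ := by linarith
      refine Pool.Agent.V35.WM.null_of_dimH (Pool.Agent.V35.WM.dim_badRay he hθ0 hθ1 hthin) (by positivity) ?_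
      rw [hcards]
      have h4 : expo s k / (1 - θ) < s - 1 := by
        rw [div_lt_iff₀ h1θ]
        exact hc
      linarith
    · have h4 := Set.not_infinite.1 hα
      refine h4.subset ?_
      rintro x ⟨hx1, r, hr, hx2⟩
      refine ⟨hx1, r, hr, ?_⟩
      rw [pi_norm_le_iff_of_nonneg (Real.rpow_nonneg hr.le _)]
      intro i
      rw [Pi.sub_apply, Pi.smul_apply, smul_eq_mul, Real.norm_eq_abs]
      exact hx2 i

end Pool.Agent.Results.MP_e21eee_nt.TuplesInWindows
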